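import Pool.Agent.Helper73.SM.GoalsK

/-!
Project KR (MP_c307ca_nt), packet KRT.
-/

set_option autoImplicit false

namespace Pool.Agent.Helper50.SM

open Finset
open Pool.Agent.Helper73.SM
open Polynomial

section val

variable {p : ℕ}

theorem fac_one (hp : p.Prime) {x : ℤ} (h0 : 0 < x) (h1 : x < (p : ℤ) ^ 2) :
    x.natAbs.factorization p = if (p : ℤ) ∣ x then 1 else 0 := by
  by_cases h : (p : ℤ) ∣ x
  · rw [if_pos h]
    obtain ⟨c, rfl⟩ := h
    have hp0 : (0 : ℤ) < p := by exact_mod_cast hp.pos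
    have hc0 : 0 < c := by
      by_contra hcon
      have : (p : ℤ) * c ≤ 0 := mul_nonpos_of_nonneg_of_nonpos hp0.le (not_lt.1 hcon)
      omega
    have hc1 : c < p := by
      by_contra hcon
      have : (p : ℤ) * p ≤ p * c := mul_le_mul_of_nonneg_left (not_lt.1 hcon) hp0.le
      rw [← pow_two] at this
      omega
    lift c to ℕ using hc0.le
    have hc0' : 0 < c := by exact_mod_cast hc0
    have hc1' : c < p := by exact_mod_cast hc1
    have e : ((p : ℤ) * (c : ℤ)).natAbs = p * c := by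
      rw [← Nat.cast_mul, Int.natAbs_natCast]
    rw [e, Nat.factorization_mul hp.ne_zero hc0'.ne', Finsupp.add_apply,
      hp.factorization_self, Nat.factorization_eq_zero_of_lt hc1']
  · rw [if_neg h]
    refine Nat.factorization_eq_zero_of_not_dvd ?_
    intro h2
    exact h (Int.natCast_dvd.2 h2)

theorem fac_prod (hp : p.Prime) (S : Finset ℕ) (f : ℕ → ℤ)
    (h : ∀ i ∈ S, 0 < f i ∧ f i < (p : ℤ) ^ 2) :
    (∏ i ∈ S, f i).natAbs.factorization p = (S.filter (fun i => (p : ℤ) ∣ f i)).card := by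
  induction S using Finset.induction_on with
  | empty => simp
  | insert a S ha ih =>
    have h1 : 0 < ∏ i ∈ S, f i := Finset.prod_pos fun i hi => (h i (Finset.mem_insert_of_mem hi)).1
    have h2 := h a (Finset.mem_insert_self a S)
    rw [Finset.prod_insert ha, Int.natAbs_mul, Nat.factorization_mul
      (Int.natAbs_ne_zero.2 h2.1.ne') (Int.natAbs_ne_zero.2 h1.ne'), Finsupp.add_apply,
      ih (fun i hi => h i (Finset.mem_insert_of_mem hi)), fac_one hp h2.1 h2.2,
      Finset.filter_insert]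
    by_cases hd : (p : ℤ) ∣ f a
    · rw [if_pos hd, if_pos hd, Finset.card_insert_of_notMem]
      · ring
      · intro h3
        exact ha (Finset.mem_filter.1 h3).1
    · rw [if_neg hd, if_neg hd, zero_add]

theorem fac_factorial (hp : p.Prime) {j : ℕ} (hj : j < p ^ 2) :
    (j.factorial).factorization p = j / p := by
  have h1 : ((j.factorial : ℕ) : ℤ) = ∏ i ∈ range j, ((i : ℤ) + 1) := by
    rw [← Finset.prod_range_add_one_eq_factorial]
    push_cast
    rfl
  have h2 : (j.factorial) = (∏ i ∈ range j, ((i : ℤ) + 1)).natAbs := by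
    rw [← h1, Int.natAbs_natCast]
  rw [h2, fac_prod hp]
  · rw [← Nat.card_multiples j p]
    congr 1
    refine Finset.filter_congr fun i _ => ?_
    constructor
    · intro h
      exact_mod_cast h
    · intro h
      exact_mod_cast h
  · intro i hi
    have := Finset.mem_range.1 hi
    constructor
    · omega
    · have h3 : i + 1 < p ^ 2 := by omega
      exact_mod_cast h3

theorem count_eq {c x : ℕ} (hc1 : 1 ≤ c) (hc2 : c < p) :
    Nat.count (· ≡ c [MOD p]) (x + 1) = x / p + if c ≤ x % p then 1 else 0 := by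
  have hp0 : 0 < p := by omega
  rw [Nat.count_modEq_card _ hp0, Nat.mod_eq_of_lt hc2]
  have h1 := Nat.div_add_mod x p
  have h2 := Nat.mod_lt x hp0
  by_cases h : x % p + 1 = p
  · have e : x + 1 = p * (x / p + 1) := by rw [mul_add, mul_one]; omega
    rw [e, Nat.mul_div_cancel_left _ hp0, Nat.mul_mod_right, if_neg (by omega), if_pos (by omega)]
  · have h3 : x % p + 1 < p := by omega
    have e : x + 1 = (x % p + 1) + p * (x / p) := by omega
    have e1 : (x + 1) / p = x / p := by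
      rw [e, Nat.add_mul_div_left _ _ hp0, Nat.div_eq_of_lt h3, zero_add]
    have e2 : (x + 1) % p = x % p + 1 := by
      rw [e, Nat.add_mul_mod_self_left, Nat.mod_eq_of_lt h3]
    rw [e1, e2]
    by_cases h4 : c ≤ x % p
    · rw [if_pos h4, if_pos (by omega)]
    · rw [if_neg h4, if_neg (by omega)]

theorem pcop {k : ℕ} (_hp : p.Prime) (hk : 1 ≤ k) (h2 : 2 * k < p) : ¬ (p : ℤ) ∣ (k : ℤ) := by
  intro h
  have h1 : p ∣ k := by exact_mod_cast h
  have := Nat.le_of_dvd (by omega) h1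
  omega

/-- the valuation of a coefficient -/
theorem val (hK : StmtKCZ) {k m n : ℕ} (hok : Ok k m) (hp : p.Prime) (h2 : 2 * k < p)
    (h3 : k * n + k < p ^ 2) {s : ℤ} (hs : s = m ∨ s = -(m : ℤ)) {c : ℕ} (hc1 : 1 ≤ c)
    (hc2 : c < p) (hc3 : (p : ℤ) ∣ (k : ℤ) * c + s) {j : ℕ} (hj : j ≤ n) :
    ck k s n j ≠ 0 ∧ (ck k s n j).natAbs.factorization p + (if c ≤ (n - j) % p then 1 else 0) =
      (if n % p < (n - j) % p then 1 else 0) + (if c ≤ n % p then 1 else 0) := by
  obtain ⟨hk3, hm1, hmk, hcop⟩ := hok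
  have hpi : Prime (p : ℤ) := Nat.prime_iff_prime_int.1 hp
  have hpk := pcop hp (by omega) h2
  have hp0 : 0 < p := hp.pos
  have hsb : -(k : ℤ) < s ∧ s < k := by
    rcases hs with h | h <;> subst h <;> constructor <;> omega
  have hn2 : n < p ^ 2 := by nlinarith
  have h3' : (k : ℤ) * n + k < (p : ℤ) ^ 2 := by exact_mod_cast h3
  -- reflect the product
  have hrefl : ∏ i ∈ range j, ((k : ℤ) * (n : ℤ) + s - (k : ℤ) * (i : ℤ)) =
      ∏ t ∈ range j, ((k : ℤ) * ((n - j + 1 + t : ℕ) : ℤ) + s) := by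
    rw [← Finset.prod_range_reflect]
    refine Finset.prod_congr rfl fun t ht => ?_
    have ht' := Finset.mem_range.1 ht
    have e1 : ((j - 1 - t : ℕ) : ℤ) = (j : ℤ) - 1 - t := by omega
    have e2 : ((n - j + 1 + t : ℕ) : ℤ) = (n : ℤ) - j + 1 + t := by omega
    rw [e1, e2]
    ring
  have hbd : ∀ t ∈ range j, 0 < (k : ℤ) * ((n - j + 1 + t : ℕ) : ℤ) + s ∧
      (k : ℤ) * ((n - j + 1 + t : ℕ) : ℤ) + s < (p : ℤ) ^ 2 := by
    intro t ht
    have ht' := Finset.mem_range.1 ht
    have e1 : (1 : ℤ) ≤ ((n - j + 1 + t : ℕ) : ℤ) := by omega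
    have e2 : ((n - j + 1 + t : ℕ) : ℤ) ≤ n := by omega
    have hk0 : (0 : ℤ) ≤ k := by omega
    have e3 := mul_le_mul_of_nonneg_left e1 hk0
    have e4 := mul_le_mul_of_nonneg_left e2 hk0
    constructor
    · omega
    · omega
  have hprod := fac_prod hp (range j) (fun t => (k : ℤ) * ((n - j + 1 + t : ℕ) : ℤ) + s) hbd
  have hppos : 0 < ∏ t ∈ range j, ((k : ℤ) * ((n - j + 1 + t : ℕ) : ℤ) + s) :=
    Finset.prod_pos fun i hi => (hbd i hi).1
  have hcount : ((range j).filter (fun t : ℕ => (p : ℤ) ∣ (k : ℤ) * ((n - j + 1 + t : ℕ) : ℤ) + s)).card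
      = Nat.count (fun t => n - j + 1 + t ≡ c [MOD p]) j := by
    rw [Nat.count_eq_card_filter_range]
    congr 1
    refine Finset.filter_congr fun t _ => ?_
    have key : ((p : ℤ) ∣ (k : ℤ) * ((n - j + 1 + t : ℕ) : ℤ) + s ↔
        (p : ℤ) ∣ ((c : ℕ) : ℤ) - ((n - j + 1 + t : ℕ) : ℤ)) := by
      have e : (k : ℤ) * ((n - j + 1 + t : ℕ) : ℤ) + s =
        ((k : ℤ) * c + s) - (k : ℤ) * (((c : ℕ) : ℤ) - ((n - j + 1 + t : ℕ) : ℤ)) := by ring
      rw [e]
      constructor
      · intro h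
        have h5 := (dvd_sub_right hc3).1 h
        exact (hpi.dvd_or_dvd h5).resolve_left hpk
      · intro h
        exact dvd_sub hc3 (h.mul_left _)
    rw [key, ← Nat.modEq_iff_dvd]
  have hmul := hK.mul k s n j
  rw [hrefl] at hmul
  have hne : ck k s n j ≠ 0 := by
    intro h
    rw [h, zero_mul] at hmul
    have hk0 : (0 : ℤ) < (k : ℤ) ^ j := by positivity
    have := mul_pos hk0 hppos
    omega
  refine ⟨hne, ?_⟩
  have hfac : (ck k s n j).natAbs.factorization p + j / p =
      Nat.count (fun t => n - j + 1 + t ≡ c [MOD p]) j := by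
    have h4 := congrArg (fun z : ℤ => z.natAbs.factorization p) hmul
    rw [Int.natAbs_mul, Int.natAbs_mul, Int.natAbs_natCast, Int.natAbs_pow, Int.natAbs_natCast,
      Nat.factorization_mul (Int.natAbs_ne_zero.2 hne) (Nat.factorial_ne_zero j),
      Nat.factorization_mul (pow_ne_zero _ (by omega)) (Int.natAbs_ne_zero.2 hppos.ne'),
      Finsupp.add_apply, Finsupp.add_apply, hprod, hcount, fac_factorial hp (by omega),
      Nat.factorization_eq_zero_of_not_dvd (n := k ^ j) (p := p), zero_add] at h4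
    · exact h4
    · intro h5
      have h6 := hp.dvd_of_dvd_pow h5
      exact hpk (by exact_mod_cast h6)
  have hadd := Nat.count_add (· ≡ c [MOD p]) (n - j + 1) j
  have e1 : n - j + 1 + j = n + 1 := by omega
  rw [e1, count_eq hc1 hc2, count_eq hc1 hc2] at hadd
  have h6 := Nat.add_div (a := j) (b := n - j) hp0
  have e2 : j + (n - j) = n := by omega
  rw [e2] at h6
  have h7 := Nat.div_add_mod n p
  have h8 := Nat.div_add_mod j p
  have h9 := Nat.div_add_mod (n - j) p
  have h10 := Nat.mod_lt j hp0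
  have h11 := Nat.mod_lt (n - j) hp0
  have h12 := Nat.mod_lt n hp0
  by_cases hcase : p ≤ j % p + (n - j) % p
  · rw [if_pos hcase] at h6
    rw [h6, mul_add, mul_add, mul_one] at h7
    rw [if_pos (show n % p < (n - j) % p by omega)]
    omega
  · rw [if_neg hcase] at h6
    rw [h6, mul_add, mul_zero, mul_add] at h7
    rw [if_neg (show ¬ n % p < (n - j) % p by omega)]
    omega

/-- the binomial coefficients -/
theorem bin (hp : p.Prime) {n e : ℕ} (he : e ≤ n) (hn : 2 * (n / p) < p) :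
    p ∣ (n + e).choose n ↔ p ≤ n % p + e % p := by
  have : Fact p.Prime := ⟨hp⟩
  have hp0 : 0 < p := hp.pos
  have hL := Choose.choose_modEq_choose_mod_mul_choose_div_nat (n := n + e) (k := n) (p := p)
  have h12 := Nat.mod_lt n hp0
  have h13 := Nat.mod_lt e hp0
  rw [hL.dvd_iff (dvd_refl p)]
  have ham := Nat.add_mod n e p
  have had := Nat.add_div (a := n) (b := e) hp0
  by_cases h : p ≤ n % p + e % p
  · refine iff_of_true ?_ h
    have e1 : (n % p + e % p) % p = n % p + e % p - p := by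
      rw [Nat.mod_eq_sub_mod h, Nat.mod_eq_of_lt (by omega)]
    rw [ham, e1, Nat.choose_eq_zero_of_lt (by omega), zero_mul]
    exact dvd_zero _
  · refine iff_of_false ?_ h
    rw [if_neg h] at had
    rw [ham, Nat.mod_eq_of_lt (not_le.1 h), had, hp.dvd_mul]
    have hed : e / p ≤ n / p := Nat.div_le_div_right he
    have nd : ∀ a b : ℕ, a < p → b ≤ a → ¬ p ∣ a.choose b := by
      intro a b ha hb h5
      have h4 : a.choose b ∣ a.factorial := by
        have h3 := Nat.choose_mul_factorial_mul_factorial hb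
        exact ⟨b.factorial * (a - b).factorial, by rw [← h3]; ring⟩
      have := (hp.dvd_factorial).1 (h5.trans h4)
      omega
    rintro (h5 | h5)
    · exact nd _ _ (not_le.1 h) (by omega) h5
    · exact nd _ _ (by linarith) (by linarith [Nat.zero_le (e / p)]) h5

end val

theorem aux1 {A B r h l : ℕ} (h1 : A ≤ B) (h2 : l ≤ r) (h3 : r ≤ h)
    (h4 : B + h - l = A + r - l) : A = B ∧ r = h := by omega

theorem aux2 {A r l : ℕ} (h : l ≤ r) : A + r = l + (A + r - l) := by omega

theorem aux3 {x A l d : ℕ} (h : x ≤ A + (l + d) - l) : x ≤ A + d := by omega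

theorem PK_zero (k : ℕ) (s : ℤ) (n : ℕ) : PK k s n 0 = ck k s n n := by
  unfold PK
  rw [Finset.sum_eq_single n]
  · have : 2 * n - n = n := by omega
    rw [this, Nat.choose_self, Nat.sub_self, pow_zero]
    simp
  · intro j hj hne
    have hj' : j ≤ n := Nat.lt_succ_iff.1 (Finset.mem_range.1 hj)
    have : n - j ≠ 0 := by omega
    rw [mul_zero, zero_pow this, mul_zero]
  · intro h
    exact absurd (Finset.mem_range.2 (Nat.lt_succ_self n)) h

/-- the polynomial in powers of `k² N`, lowest power first -/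
theorem PK_reflect (k : ℕ) (s : ℤ) (n : ℕ) (N : ℤ) :
    PK k s n N = ∑ e ∈ range (n + 1), ck k s n (n - e) * ((n + e).choose n : ℤ) *
      ((k : ℤ) ^ 2 * N) ^ e := by
  unfold PK
  rw [← Finset.sum_range_reflect]
  refine Finset.sum_congr rfl fun e he => ?_
  have he' := Finset.mem_range.1 he
  have e1 : n + 1 - 1 - e = n - e := by omega
  have e2 : 2 * n - (n - e) = n + e := by omega
  have e3 : n - (n - e) = e := by omega
  rw [e1, e2, e3]

/-- the number of nonzero roots of one of the two polynomials -/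
theorem roots_le (hK : StmtKCZ) {k m n p : ℕ} (hok : Ok k m) (hp : p.Prime) (h2 : 2 * k < p)
    (h3 : k * n + k < p ^ 2) {s : ℤ} (hs : s = m ∨ s = -(m : ℤ)) {l : ℕ} (hl1 : 1 ≤ l)
    (_hl2 : 2 * l < p) (hl3 : (p : ℤ) ∣ (k : ℤ) * l + s) (hln : l ≤ n % p) (hnl : n % p + l < p)
    {h : ℕ} (hh : h = min (n % p) (p - 1 - n % p)) :
    ((range p).filter (fun N : ℕ => N ≠ 0 ∧ (p : ℤ) ∣ PK k s n N)).card ≤ n / p + h - l := by
  classical
  have : Fact p.Prime := ⟨hp⟩
  have hk3 := hok.1
  have hp0 : 0 < p := hp.pos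
  have hpi : Prime (p : ℤ) := Nat.prime_iff_prime_int.1 hp
  have hnp : 2 * (n / p) < p := by
    have h4 : k * n < p * p := by rw [← pow_two]; omega
    have h5 : 3 * n ≤ k * n := Nat.mul_le_mul_right n hk3
    have h6 := Nat.div_mul_le_self n p
    have h7 : 3 * (n / p * p) ≤ 3 * n := Nat.mul_le_mul_left 3 h6
    have h8 : (3 * (n / p)) * p < p * p := by
      calc (3 * (n / p)) * p = 3 * (n / p * p) := by ring
        _ < p * p := by omega
    have h9 := lt_of_mul_lt_mul_right h8 (Nat.zero_le p)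
    omega
  have hlh : l ≤ h := by
    rw [hh]
    exact le_min hln (by omega)
  have hhn : h ≤ n % p := by rw [hh]; exact min_le_left _ _
  have hhp : n % p + h < p := by
    have : h ≤ p - 1 - n % p := by rw [hh]; exact min_le_right _ _
    have := Nat.mod_lt n hp0
    omega
  -- coefficients
  set c : ℕ → ZMod p := fun e => ((ck k s n (n - e) * ((n + e).choose n : ℤ) : ℤ) : ZMod p)
    with hc
  have hc0 : ∀ e ≤ n, ¬ (l ≤ e % p ∧ e % p ≤ h) → c e = 0 := by
    intro e he h'
    rw [hc]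
    change (((ck k s n (n - e) * ((n + e).choose n : ℤ) : ℤ)) : ZMod p) = 0
    rw [ZMod.intCast_zmod_eq_zero_iff_dvd]
    by_cases h4 : p ≤ n % p + e % p
    · refine Dvd.dvd.mul_left ?_ _
      exact_mod_cast (bin hp he hnp).2 h4
    · refine Dvd.dvd.mul_right ?_ _
      have h5 := val hK hok hp h2 h3 hs hl1 (by omega) hl3 (j := n - e) (by omega)
      have e3 : n - (n - e) = e := by omega
      rw [e3] at h5
      obtain ⟨h6, h7⟩ := h5
      rw [if_pos hln] at h7
      have h8 : (ck k s n (n - e)).natAbs.factorization p ≠ 0 := by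
        by_cases h9 : l ≤ e % p
        · rw [if_pos h9] at h7
          have h10 : ¬ e % p ≤ h := fun h11 => h' ⟨h9, h11⟩
          have h11 : n % p < e % p := by
            by_contra hcon
            apply h10
            rw [hh]
            exact le_min (not_lt.1 hcon) (by omega)
          rw [if_pos h11] at h7
          omega
        · rw [if_neg h9] at h7
          omega
      have h9 : p ∣ (ck k s n (n - e)).natAbs := Nat.dvd_of_factorization_pos h8
      exact Int.natCast_dvd.2 h9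
  set e₀ : ℕ := p * (n / p) + h with he₀
  have hdm := Nat.div_add_mod n p
  have he₀n : e₀ ≤ n := by omega
  have hhp' : h < p := by omega
  have he₀m : e₀ % p = h := by
    rw [he₀, Nat.mul_add_mod, Nat.mod_eq_of_lt hhp']
  have he₀d : e₀ / p = n / p := by
    rw [he₀, Nat.mul_add_div hp0, Nat.div_eq_of_lt hhp', add_zero]
  have hc1 : c e₀ ≠ 0 := by
    rw [hc]
    change (((ck k s n (n - e₀) * ((n + e₀).choose n : ℤ) : ℤ)) : ZMod p) ≠ 0
    rw [Ne, ZMod.intCast_zmod_eq_zero_iff_dvd]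
    intro h'
    rcases hpi.dvd_or_dvd h' with h4 | h4
    · have h5 := val hK hok hp h2 h3 hs hl1 (by omega) hl3 (j := n - e₀) (by omega)
      have e3 : n - (n - e₀) = e₀ := by omega
      rw [e3, he₀m, if_pos hln, if_pos hlh, if_neg (by omega)] at h5
      obtain ⟨h6, h7⟩ := h5
      have h8 : p ∣ (ck k s n (n - e₀)).natAbs := Int.natCast_dvd.1 h4
      have h9 := (hp.dvd_iff_one_le_factorization (Int.natAbs_ne_zero.2 h6)).1 h8
      omega
    · have h5 := (bin hp he₀n hnp).1 (by exact_mod_cast h4)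
      omega
  set S : Finset ℕ := (range (n + 1)).filter (fun e => l ≤ e % p ∧ e % p ≤ h) with hS
  set F : (ZMod p)[X] := ∑ e ∈ S, C (c e) * X ^ (e / p + e % p - l) with hF
  have hdle : ∀ e ∈ S, e / p ≤ n / p ∧ l ≤ e % p ∧ e % p ≤ h := by
    intro e he
    obtain ⟨he1, he2⟩ := Finset.mem_filter.1 he
    have := Finset.mem_range.1 he1
    exact ⟨Nat.div_le_div_right (by omega), he2⟩
  have hdeg : F.natDegree ≤ n / p + h - l := by
    rw [hF]
    refine Polynomial.natDegree_sum_le_of_forall_le _ _ ?_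
    intro e he
    refine (Polynomial.natDegree_C_mul_X_pow_le _ _).trans ?_
    obtain ⟨h4, h5, h6⟩ := hdle e he
    omega
  have he₀S : e₀ ∈ S := Finset.mem_filter.2
    ⟨Finset.mem_range.2 (by omega), by rw [he₀m]; exact ⟨hlh, le_refl _⟩⟩
  have hF0 : F ≠ 0 := by
    intro h'
    have h4 : F.coeff (n / p + h - l) = c e₀ := by
      rw [hF, Polynomial.finsetSum_coeff, Finset.sum_eq_single e₀]
      · rw [Polynomial.coeff_C_mul_X_pow, he₀m, he₀d, if_pos rfl]
      · intro e he hne
        rw [Polynomial.coeff_C_mul_X_pow, if_neg]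
        obtain ⟨h4, h5, h6⟩ := hdle e he
        intro h7
        apply hne
        have h8 := Nat.div_add_mod e p
        obtain ⟨h9, h10⟩ := aux1 h4 h5 h6 h7
        rw [← h8, h9, h10]
      · intro h'
        exact absurd he₀S h'
    rw [h', Polynomial.coeff_zero] at h4
    exact hc1 h4.symm
  have hk2 : ((k : ZMod p)) ^ 2 ≠ 0 := by
    refine pow_ne_zero _ ?_
    rw [Ne, ZMod.natCast_eq_zero_iff]
    intro h'
    have := Nat.le_of_dvd (by omega) h'
    omega
  have hroot : ∀ N : ℕ, N ∈ (range p).filter (fun N : ℕ => N ≠ 0 ∧ (p : ℤ) ∣ PK k s n N) →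
      ((k : ZMod p)) ^ 2 * (N : ZMod p) ∈ F.roots.toFinset := by
    intro N hN
    obtain ⟨hNp, hN0, hd⟩ := Finset.mem_filter.1 hN
    have hNp' := Finset.mem_range.1 hNp
    set y : ZMod p := ((k : ZMod p)) ^ 2 * (N : ZMod p) with hy
    have hy0 : y ≠ 0 := by
      rw [hy]
      refine mul_ne_zero hk2 ?_
      rw [Ne, ZMod.natCast_eq_zero_iff]
      intro h'
      exact absurd (Nat.le_of_dvd (by omega) h') (by omega)
    rw [Multiset.mem_toFinset, Polynomial.mem_roots hF0, Polynomial.IsRoot.def]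
    have e1 : ((PK k s n (N : ℤ) : ℤ) : ZMod p) = 0 :=
      (ZMod.intCast_zmod_eq_zero_iff_dvd _ _).2 hd
    have e2 : ((PK k s n (N : ℤ) : ℤ) : ZMod p) = ∑ e ∈ range (n + 1), c e * y ^ e := by
      rw [PK_reflect, hc, hy]
      push_cast
      rfl
    have e3 : ∑ e ∈ range (n + 1), c e * y ^ e = ∑ e ∈ S, c e * y ^ e := by
      symm
      refine Finset.sum_subset (Finset.filter_subset _ _) ?_
      intro e he hne
      have h4 := Finset.mem_range.1 he
      rw [hc0 e (by omega) (fun h' => hne (Finset.mem_filter.2 ⟨he, h'⟩)), zero_mul]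
    have e4 : ∑ e ∈ S, c e * y ^ e = y ^ l * F.eval y := by
      rw [hF, Polynomial.eval_finsetSum, Finset.mul_sum]
      refine Finset.sum_congr rfl fun e he => ?_
      obtain ⟨h4, h5, h6⟩ := hdle e he
      rw [Polynomial.eval_mul, Polynomial.eval_C, Polynomial.eval_pow, Polynomial.eval_X]
      have h7 : y ^ e = y ^ (e / p + e % p) := by
        conv_lhs => rw [← Nat.div_add_mod e p, pow_add, pow_mul, ZMod.pow_card, ← pow_add]
      have h8 : e / p + e % p = l + (e / p + e % p - l) := aux2 h5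
      rw [h7]
      conv_lhs => rw [h8, pow_add]
      ring
    rw [e2, e3, e4] at e1
    exact (mul_eq_zero.1 e1).resolve_left (pow_ne_zero _ hy0)
  calc ((range p).filter (fun N : ℕ => N ≠ 0 ∧ (p : ℤ) ∣ PK k s n N)).card
      ≤ F.roots.toFinset.card := by
        refine Finset.card_le_card_of_injOn (fun N : ℕ => ((k : ZMod p)) ^ 2 * (N : ZMod p))
          hroot ?_
        intro N hN M hM h'
        have h4 := mul_left_cancel₀ hk2 h'
        rw [ZMod.natCast_eq_natCast_iff'] at h4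
        have hN' := Finset.mem_range.1 (Finset.mem_filter.1 hN).1
        have hM' := Finset.mem_range.1 (Finset.mem_filter.1 hM).1
        rwa [Nat.mod_eq_of_lt hN', Nat.mod_eq_of_lt hM'] at h4
    _ ≤ Multiset.card F.roots := Multiset.toFinset_card_le _
    _ ≤ F.natDegree := Polynomial.card_roots' F
    _ ≤ n / p + h - l := hdeg

/-- zero is not a common root -/
theorem zero_not (hK : StmtKCZ) {k m n p : ℕ} (hok : Ok k m) (hp : p.Prime) (h2 : 2 * k < p)
    (h3 : k * n + k < p ^ 2) {s : ℤ} (hs : s = m ∨ s = -(m : ℤ)) {c : ℕ} (hc1 : 1 ≤ c)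
    (hc2 : c < p) (hc3 : (p : ℤ) ∣ (k : ℤ) * c + s) (hnc : n % p < c) :
    ¬ (p : ℤ) ∣ PK k s n 0 := by
  rw [PK_zero]
  intro h
  obtain ⟨h4, h5⟩ := val hK hok hp h2 h3 hs hc1 hc2 hc3 (le_refl n)
  rw [Nat.sub_self, Nat.zero_mod, if_neg (by omega), if_neg (by omega), if_neg (by omega)] at h5
  have h6 : p ∣ (ck k s n n).natAbs := Int.natCast_dvd.1 h
  have h9 := (hp.dvd_iff_one_le_factorization (Int.natAbs_ne_zero.2 h4)).1 h6
  omega

theorem goalKRT (hK : StmtKCZ) : StmtKRT := by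
  intro k m n p l hok hp h2 h3 hl hln hnl
  obtain ⟨hk3, hm1, hmk, hcop⟩ := hok
  have hok : Ok k m := ⟨hk3, hm1, hmk, hcop⟩
  obtain ⟨hl1, hl2, hl3⟩ := hl
  have hp0 : 0 < p := hp.pos
  obtain ⟨h, hh⟩ : ∃ h, h = min (n % p) (p - 1 - n % p) := ⟨_, rfl⟩
  have hh2 : 2 * h + 1 ≤ p := by
    have h5 : h ≤ n % p := by rw [hh]; exact min_le_left _ _
    have h6 : h ≤ p - 1 - n % p := by rw [hh]; exact min_le_right _ _
    omega
  have hlh : l ≤ h := by
    rw [hh]
    exact le_min hln (by omega)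
  have hkl : (k : ℤ) * 1 ≤ (k : ℤ) * l :=
    mul_le_mul_of_nonneg_left (by exact_mod_cast hl1) (by omega)
  have fin : ∀ x : ℕ, x ≤ n / p + h - l → p ≤ k * l + m →
      2 * k * x ≤ (k - 2) * p + 2 * k * (n / p) + 2 * k := by
    intro x hx hpk
    obtain ⟨k', rfl⟩ : ∃ k', k = k' + 2 := ⟨k - 2, by omega⟩
    obtain ⟨d, rfl⟩ : ∃ d, h = l + d := ⟨h - l, by omega⟩
    have hx' : x ≤ n / p + d := aux3 hx
    have e1 : k' + 2 - 2 = k' := by omega
    rw [e1]
    have h6 : 2 * (k' + 2) * x ≤ 2 * (k' + 2) * (n / p + d) := Nat.mul_le_mul_left _ hx'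
    have h7 : (k' + 2) * (2 * (l + d) + 1) ≤ (k' + 2) * p := Nat.mul_le_mul_left _ hh2
    nlinarith
  rcases hl3 with hl3 | hl3
  · -- s = m
    have hpk : p ≤ k * l + m := by
      have h5 : (0 : ℤ) < (k : ℤ) * l + m := by omega
      have h6 := Int.le_of_dvd h5 hl3
      exact_mod_cast h6
    have hsub : (range p).filter
        (fun a : ℕ => (p : ℤ) ∣ PK k (m : ℤ) n a ∧ (p : ℤ) ∣ PK k (-(m : ℤ)) n a) ⊆
        (range p).filter (fun N : ℕ => N ≠ 0 ∧ (p : ℤ) ∣ PK k (m : ℤ) n N) := by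
      intro N hN
      obtain ⟨h4, h5, h6⟩ := Finset.mem_filter.1 hN
      refine Finset.mem_filter.2 ⟨h4, ?_, h5⟩
      rintro rfl
      rw [Nat.cast_zero] at h6
      refine zero_not hK hok hp h2 h3 (s := -(m : ℤ)) (Or.inr rfl) (c := p - l) (by omega)
        (by omega) ?_ (by omega) h6
      have e1 : ((p - l : ℕ) : ℤ) = (p : ℤ) - l := by omega
      have e2 : (k : ℤ) * ((p - l : ℕ) : ℤ) + -(m : ℤ) = (k : ℤ) * p - ((k : ℤ) * l + m) := by
        rw [e1]; ring
      rw [e2]
      exact dvd_sub (Dvd.intro_left _ rfl) hl3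
    have hr := roots_le hK hok hp h2 h3 (s := (m : ℤ)) (Or.inl rfl) hl1 hl2 hl3 hln hnl hh
    exact fin _ ((Finset.card_le_card hsub).trans hr) hpk
  · -- s = -m
    have hpk : p ≤ k * l + m := by
      have h5 : (0 : ℤ) < (k : ℤ) * l - m := by omega
      have h6 := Int.le_of_dvd h5 hl3
      have h7 : (p : ℤ) ≤ (k : ℤ) * l + m := by omega
      exact_mod_cast h7
    have hsub : (range p).filter
        (fun a : ℕ => (p : ℤ) ∣ PK k (m : ℤ) n a ∧ (p : ℤ) ∣ PK k (-(m : ℤ)) n a) ⊆
        (range p).filter (fun N : ℕ => N ≠ 0 ∧ (p : ℤ) ∣ PK k (-(m : ℤ)) n N) := by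
      intro N hN
      obtain ⟨h4, h5, h6⟩ := Finset.mem_filter.1 hN
      refine Finset.mem_filter.2 ⟨h4, ?_, h6⟩
      rintro rfl
      rw [Nat.cast_zero] at h5
      refine zero_not hK hok hp h2 h3 (s := (m : ℤ)) (Or.inl rfl) (c := p - l) (by omega)
        (by omega) ?_ (by omega) h5
      have e1 : ((p - l : ℕ) : ℤ) = (p : ℤ) - l := by omega
      have e2 : (k : ℤ) * ((p - l : ℕ) : ℤ) + (m : ℤ) = (k : ℤ) * p - ((k : ℤ) * l - m) := by
        rw [e1]; ring
      rw [e2]
      exact dvd_sub (Dvd.intro_left _ rfl) hl3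
    have hr := roots_le hK hok hp h2 h3 (s := -(m : ℤ)) (Or.inr rfl) hl1 hl2
      (by rw [← sub_eq_add_neg]; exact hl3) hln hnl hh
    exact fin _ ((Finset.card_le_card hsub).trans hr) hpk

end Pool.Agent.Helper50.SM
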